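import Mathlib

/-!
ROOM HO (helper366): the second order coefficient on the zero set is positive.

`KQ W Q` is the coefficient computed in a frame `(f₁, f₂, n)`; in terms of the Euler top field
`D n = B n × n` it is `(1/2) D² (n ⬝ Q n)`.
-/

set_option autoImplicit false

open Matrix

namespace H366HO

/-- the `ν`-coefficient in a frame with third vector `n` -/
def KQ (W Q : Matrix (Fin 3) (Fin 3) ℝ) : ℝ :=
  W 1 2 ^ 2 * (Q 0 0 - Q 2 2) + W 0 2 ^ 2 * (Q 1 1 - Q 2 2) - 2 * W 0 2 * W 1 2 * Q 0 1 +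
    (W 2 2 - W 1 1) * W 0 2 * Q 0 2 + W 0 1 * W 1 2 * Q 0 2 + (W 2 2 - W 0 0) * W 1 2 * Q 1 2 +
    W 0 1 * W 0 2 * Q 1 2

/-- `B = e₁ ⊗ e₃ + e₃ ⊗ e₁` -/
def B0 : Matrix (Fin 3) (Fin 3) ℝ := !![0, 0, 1; 0, 0, 0; 1, 0, 0]

/-- `Q = diag (3, 0, -1)` -/
def Q0 : Matrix (Fin 3) (Fin 3) ℝ := !![3, 0, 0; 0, 0, 0; 0, 0, -1]

/-- `(1/2) D² (n ⬝ Q0 n)`, `D n = B0 n × n`, as a polynomial in `n` -/
def D2 (a b c : ℝ) : ℝ :=
  3 * a ^ 4 + c ^ 4 + 2 * (3 * a ^ 2 - c ^ 2) * (a + b) * (b - a)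

theorem KQ_frame (R : Matrix (Fin 3) (Fin 3) ℝ) (hR : Rᵀ * R = 1) :
    KQ (Rᵀ * B0 * R) (Rᵀ * Q0 * R) = D2 (R 0 2) (R 1 2) (R 2 2) := by
  have hR' : R * Rᵀ = 1 := mul_eq_one_comm.1 hR
  have e := fun i j => congrFun (congrFun hR i) j
  have e' := fun i j => congrFun (congrFun hR' i) j
  simp only [Matrix.mul_apply, Matrix.transpose_apply, Fin.sum_univ_three] at e e'
  have a22 := e 2 2
  have b00 := e' 0 0
  have b22 := e' 2 2
  have b02 := e' 0 2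
  clear e e'
  rw [Matrix.one_apply_eq] at a22 b00 b22
  rw [Matrix.one_apply_ne (by decide)] at b02
  simp only [KQ, B0, Q0, D2, Matrix.mul_apply, Matrix.transpose_apply, Fin.sum_univ_three,
    Matrix.of_apply, Matrix.cons_val', Matrix.cons_val_zero, Matrix.cons_val_one,
    Matrix.cons_val_two, Matrix.cons_val_fin_one, Matrix.head_cons, Matrix.tail_cons, Fin.isValue,
    Matrix.head_fin_const]
  generalize R 0 0 = p1 at *
  generalize R 1 0 = p2 at *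
  generalize R 2 0 = p3 at *
  generalize R 0 1 = q1 at *
  generalize R 1 1 = q2 at *
  generalize R 2 1 = q3 at *
  generalize R 0 2 = n1 at *
  generalize R 1 2 = n2 at *
  generalize R 2 2 = n3 at *
  have h11 : p1 ^ 2 + q1 ^ 2 = 1 - n1 ^ 2 := by linear_combination b00
  have h33 : p3 ^ 2 + q3 ^ 2 = 1 - n3 ^ 2 := by linear_combination b22
  have h13 : p1 * p3 + q1 * q3 = -(n1 * n3) := by linear_combination b02
  have hn : n2 ^ 2 = 1 - n1 ^ 2 - n3 ^ 2 := by linear_combination a22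
  have hm : (p3 * q1 - p1 * q3) ^ 2 = n2 ^ 2 := by
    have : (p3 * q1 - p1 * q3) ^ 2 =
        (p1 ^ 2 + q1 ^ 2) * (p3 ^ 2 + q3 ^ 2) - (p1 * p3 + q1 * q3) ^ 2 := by ring
    rw [this, h11, h33, h13, hn]; ring
  have hS1 : (p1 ^ 2 + q1 ^ 2) * (3 * n1 * n3) + (p1 * p3 + q1 * q3) * (3 * n1 ^ 2 - n3 ^ 2) -
      (p3 ^ 2 + q3 ^ 2) * (n1 * n3) = 2 * n1 * n3 - 2 * n1 * n3 * (3 * n1 ^ 2 - n3 ^ 2) := by
    rw [h11, h33, h13]; ring
  have hS2 : (p1 ^ 2 + q1 ^ 2) * n3 ^ 2 + 2 * (p1 * p3 + q1 * q3) * (n1 * n3) +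
      (p3 ^ 2 + q3 ^ 2) * n1 ^ 2 = n1 ^ 2 + n3 ^ 2 - 4 * n1 ^ 2 * n3 ^ 2 := by
    rw [h11, h33, h13]; ring
  linear_combination (2 * (3 * n1 ^ 2 - n3 ^ 2)) * hm + (2 * n1 * n3) * hS1 -
    (3 * n1 ^ 2 - n3 ^ 2) * hS2

/-- positivity on the unit sphere -/
theorem D2_pos {a b c κ δ : ℝ} (hn : a ^ 2 + b ^ 2 + c ^ 2 = 1) (hδ : 0 < δ)
    (h : δ ≤ κ / 32) : 0 < κ * (a + b) ^ 2 + δ * D2 a b c := by
  have hT : 0 ≤ 3 * a ^ 4 + c ^ 4 := by positivity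
  have hw : (b - a) ^ 2 ≤ 2 := by nlinarith [sq_nonneg (a + b), sq_nonneg c]
  -- lower bound for D2
  have h1 : (3 * a ^ 2 - c ^ 2) ^ 2 ≤ 4 * (3 * a ^ 4 + c ^ 4) := by
    nlinarith [sq_nonneg (a ^ 2 + c ^ 2), mul_nonneg (sq_nonneg a) (sq_nonneg c), sq_nonneg (a^2),
      sq_nonneg (c^2)]
  have h2 : -(16 * (a + b) ^ 2) - (1 / 2) * (3 * a ^ 4 + c ^ 4) ≤
      2 * (3 * a ^ 2 - c ^ 2) * (a + b) * (b - a) := by
    have h3 : ((3 * a ^ 2 - c ^ 2) * (b - a)) ^ 2 ≤ 8 * (3 * a ^ 4 + c ^ 4) := by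
      rw [mul_pow]
      nlinarith [mul_nonneg (sub_nonneg.2 h1) (sq_nonneg (b - a)), sq_nonneg (3 * a ^ 2 - c ^ 2),
        mul_nonneg hT (sub_nonneg.2 hw)]
    nlinarith [sq_nonneg ((3 * a ^ 2 - c ^ 2) * (b - a) / 4 + 4 * (a + b)), h3]
  have h4 : (1 / 2) * (3 * a ^ 4 + c ^ 4) - 16 * (a + b) ^ 2 ≤ D2 a b c := by
    unfold D2
    nlinarith [sq_nonneg (a + b)]
  have h5 : 0 < (a + b) ^ 2 + (3 * a ^ 4 + c ^ 4) := by
    rcases (by positivity : 0 ≤ (a + b) ^ 2 + (3 * a ^ 4 + c ^ 4)).lt_or_eq with h | h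
    · exact h
    · exfalso
      have ha : a ^ 4 = 0 := by nlinarith [sq_nonneg (a + b), sq_nonneg (a ^ 2), sq_nonneg (c ^ 2)]
      have hc : c ^ 4 = 0 := by nlinarith [sq_nonneg (a + b), sq_nonneg (a ^ 2), sq_nonneg (c ^ 2)]
      have ha' : a = 0 := by simpa using ha
      have hc' : c = 0 := by simpa using hc
      subst ha' hc'
      nlinarith [h, hn]
  have hκ : 0 < κ := by linarith
  have : κ * (a + b) ^ 2 + δ * D2 a b c ≥
      (κ / 2) * (a + b) ^ 2 + (δ / 2) * (3 * a ^ 4 + c ^ 4) := by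
    have h6 := mul_le_mul_of_nonneg_left h4 hδ.le
    have h7 : δ * (a + b) ^ 2 ≤ κ / 32 * (a + b) ^ 2 :=
      mul_le_mul_of_nonneg_right h (sq_nonneg _)
    nlinarith [h6, h7]
  have h8 : 0 < (κ / 2) * (a + b) ^ 2 + (δ / 2) * (3 * a ^ 4 + c ^ 4) := by
    rcases (sq_nonneg (a + b)).lt_or_eq with h | h
    · have := mul_pos hκ h
      have := mul_nonneg hδ.le hT
      linarith
    · rw [← h] at h5 ⊢
      have := mul_pos hδ (by linarith : 0 < 3 * a ^ 4 + c ^ 4)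
      linarith
  linarith

/-- the function on the zero set is positive in every frame -/
theorem S_pos (R : Matrix (Fin 3) (Fin 3) ℝ) (hR : Rᵀ * R = 1) {κ δ : ℝ} (hδ : 0 < δ)
    (h : δ ≤ κ / 32) :
    0 < κ * (R 0 2 + R 1 2) ^ 2 + δ * KQ (Rᵀ * B0 * R) (Rᵀ * Q0 * R) := by
  rw [KQ_frame R hR]
  refine D2_pos ?_ hδ h
  have e := congrFun (congrFun hR 2) 2
  simp only [Matrix.mul_apply, Matrix.transpose_apply, Fin.sum_univ_three, Matrix.one_apply_eq] at e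
  linear_combination e

end H366HO
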